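import Pool.Agent.R482.ST.Frac

/-!
# Points near the members of a thin set

Let each member `t` of a set `S` have a height `h t ≥ 1` and a point `p t` of a normed space, and let the number of the
members of height at most `X` be at most `C X ^ (s + ε)`. Then for all points `x` outside a set of Hausdorff dimension at
most `s / ρ` and each `c` there are only finitely many members `t` with `‖x - p t‖ ≤ c (h t) ^ (-ρ)`.
-/

set_option autoImplicit false

open Filter Topology Finset MeasureTheory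
open scoped ENNReal NNReal

namespace Pool.Agent.N293.TT

variable {W : Type} [NormedAddCommGroup W]

lemma core {T : Type} (S : Set T) (h : T → ℝ) (p : T → W) {s ρ : ℝ} (hs : 0 ≤ s) (hρ : 0 < ρ)
    (hh : ∀ t ∈ S, 1 ≤ h t)
    (hS : ∀ ε : ℝ, 0 < ε → ∃ C : ℝ, ∀ X : ℝ, 1 ≤ X →
      {t | t ∈ S ∧ h t ≤ X}.Finite ∧ ({t | t ∈ S ∧ h t ≤ X}.ncard : ℝ) ≤ C * X ^ (s + ε)) {c : ℝ} (hc : 0 < c) :
    dimH {x : W | {t | t ∈ S ∧ ‖x - p t‖ ≤ c * (h t) ^ (-ρ)}.Infinite} ≤ ENNReal.ofReal (s / ρ) := by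
  classical
  apply ENNReal.le_of_forall_pos_le_add
  intro ε hε _
  have hε' : (0 : ℝ) < ε := by exact_mod_cast hε
  rw [← ENNReal.ofReal_coe_nnreal (p := ε), ← ENNReal.ofReal_add (by positivity) hε'.le]
  set D : ℝ := s / ρ + ε with hD
  have hD0 : 0 < D := by positivity
  have hDρ : D * ρ = s + ε * ρ := by
    rw [hD, add_mul, div_mul_cancel₀ _ hρ.ne']
  set η : ℝ := ε * ρ / 2 with hη
  have hη0 : 0 < η := by positivity
  obtain ⟨C, hC⟩ := hS η hη0
  have hScount : S.Countable := by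
    have h1 : S ⊆ ⋃ N : ℕ, {t | t ∈ S ∧ h t ≤ (N : ℝ) + 1} := by
      intro t ht
      obtain ⟨N, hN⟩ := exists_nat_ge (h t)
      exact Set.mem_iUnion.2 ⟨N, ht, by linarith⟩
    refine (Set.countable_iUnion fun N => ?_).mono h1
    refine (hC _ ?_).1.countable
    have : (0 : ℝ) ≤ N := Nat.cast_nonneg N
    linarith
  have : Countable S := hScount.to_subtype
  have hone : ∀ t : S, (1 : ℝ) ≤ h t.1 := fun t => hh t.1 t.2
  have hpos : ∀ t : S, (0 : ℝ) < h t.1 := fun t => lt_of_lt_of_le one_pos (hone t)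
  have h1 := Pool.Agent.R482.ST.dimH_limsup' (fun t : S => {x : W | ‖x - p t.1‖ ≤ c * (h t.1) ^ (-ρ)})
    (fun t => 2 * c * (h t.1) ^ (-ρ))
    (fun t => by
      have := hpos t
      positivity)
    (fun t => by
      apply Metric.ediam_le
      intro x hx y hy
      rw [edist_dist]
      apply ENNReal.ofReal_le_ofReal
      rw [dist_eq_norm]
      have hx' : ‖x - p t.1‖ ≤ c * (h t.1) ^ (-ρ) := hx
      have hy' : ‖y - p t.1‖ ≤ c * (h t.1) ^ (-ρ) := hy
      have e : x - y = (x - p t.1) - (y - p t.1) := by abel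
      rw [e]
      have := norm_sub_le (x - p t.1) (y - p t.1)
      linarith) hD0 (by
      have h2 := Pool.Agent.R479.DA.summable_heights (ι := S) (fun t => h t.1) hone
        (s := s + η) (p := D * ρ) (C := |C|)
        (by rw [hDρ, hη]; nlinarith [mul_pos hε' hρ]) (by positivity) (by
          intro X hX
          have hX0 : 0 < X := by linarith
          have hinj : Set.InjOn (Subtype.val : S → T) {t | h t.1 ≤ X} := Subtype.val_injective.injOn
          have himg : (Subtype.val : S → T) '' {t | h t.1 ≤ X} = {t | t ∈ S ∧ h t ≤ X} := by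
            ext t
            constructor
            · rintro ⟨u, hu, rfl⟩
              exact ⟨u.2, hu⟩
            · rintro ⟨h1, h2⟩
              exact ⟨⟨t, h1⟩, h2, rfl⟩
          refine ⟨Set.Finite.of_finite_image (by rw [himg]; exact (hC X hX).1) hinj, ?_⟩
          rw [← hinj.ncard_image, himg]
          exact (hC X hX).2.trans (mul_le_mul_of_nonneg_right (le_abs_self C) (by positivity)))
      refine (h2.mul_left ((2 * c) ^ D)).congr fun t => ?_
      have := hpos t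
      have e : (2 * c * (h t.1) ^ (-ρ)) ^ D = (2 * c) ^ D * ((h t.1) ^ (-ρ)) ^ D :=
        Real.mul_rpow (by positivity) (by positivity)
      rw [e, ← Real.rpow_mul this.le]
      congr 2
      ring)
  refine le_trans (dimH_mono ?_) h1
  intro x hx
  simp only [Set.mem_ofPred_eq] at hx ⊢
  have himg : (Subtype.val : S → T) '' {t | ‖x - p t.1‖ ≤ c * (h t.1) ^ (-ρ)} =
      {t | t ∈ S ∧ ‖x - p t‖ ≤ c * (h t) ^ (-ρ)} := by
    ext t
    constructor
    · rintro ⟨u, hu, rfl⟩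
      exact ⟨u.2, hu⟩
    · rintro ⟨h1, h2⟩
      exact ⟨⟨t, h1⟩, h2, rfl⟩
  rw [← himg] at hx
  exact fun hfin => hx (hfin.image _)

/-- **Points near the members of a thin set.** -/
theorem targets {T : Type} (S : Set T) (h : T → ℝ) (p : T → W) {s ρ : ℝ} (hs : 0 ≤ s) (hρ : 0 < ρ)
    (hh : ∀ t ∈ S, 1 ≤ h t)
    (hS : ∀ ε : ℝ, 0 < ε → ∃ C : ℝ, ∀ X : ℝ, 1 ≤ X →
      {t | t ∈ S ∧ h t ≤ X}.Finite ∧ ({t | t ∈ S ∧ h t ≤ X}.ncard : ℝ) ≤ C * X ^ (s + ε)) :
    ∃ E : Set W, dimH E ≤ ENNReal.ofReal (s / ρ) ∧ ∀ x, x ∉ E → ∀ c : ℝ,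
      ∃ X₀ : ℝ, ∀ t ∈ S, ‖x - p t‖ ≤ c * (h t) ^ (-ρ) → h t < X₀ := by
  refine ⟨⋃ k : ℕ, {x : W | {t | t ∈ S ∧ ‖x - p t‖ ≤ ((k : ℝ) + 1) * (h t) ^ (-ρ)}.Infinite}, ?_, fun x hx c => ?_⟩
  · rw [dimH_iUnion]
    exact iSup_le fun k => core S h p hs hρ hh hS (by positivity)
  · obtain ⟨k, hk⟩ := exists_nat_ge c
    have hfin : {t | t ∈ S ∧ ‖x - p t‖ ≤ ((k : ℝ) + 1) * (h t) ^ (-ρ)}.Finite := by
      by_contra hcon
      exact hx (Set.mem_iUnion.2 ⟨k, hcon⟩)
    obtain ⟨M, hM⟩ := (hfin.image h).bddAbove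
    refine ⟨M + 1, fun t ht hn => ?_⟩
    have h1 : h t ∈ h '' {t | t ∈ S ∧ ‖x - p t‖ ≤ ((k : ℝ) + 1) * (h t) ^ (-ρ)} := by
      refine ⟨t, ⟨ht, hn.trans ?_⟩, rfl⟩
      have h2 : 0 ≤ (h t) ^ (-ρ) := Real.rpow_nonneg (by linarith [hh t ht]) _
      exact mul_le_mul_of_nonneg_right (by linarith) h2
    have h3 := hM h1
    linarith

end Pool.Agent.N293.TT
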